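import Pool.Agent.Helper69.LT.St
import Pool.Agent.Helper22.NL.StR
import Pool.Agent.Helper22.NL.M_TauLeft
import Pool.Agent.Helper22.NL.M_KpSup
import Pool.Agent.Helper84.LE.BKP
import Pool.Agent.Helper84.LE.All

/-! # LT module KpQ: powers of the weighted kernel at `pH` (power 64, with the neighbour sum) -/

set_option autoImplicit false

open scoped BigOperators ENNReal
open MeasureTheory Pool.LE Pool.NL

namespace Pool.LT

namespace KpQM

theorem even_of_sym {d : ℕ} {f : Zd d → ℝ} (h : SymF f) : EvenF f := by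
  intro x
  have := h 1 (fun _ => -1) x
  rw [← this]
  congr 1
  funext i
  simp [sgp]

theorem bd3 {d : ℕ} {p : ℝ} (h : Bd 2 d p) : Bd 3 d p :=
  ⟨h.hp.trans (by norm_num), fun k hk => (h.ft k hk).trans (by norm_num),
    fun k hk => (h.mt k hk).trans (by norm_num)⟩

theorem kd_eq {d : ℕ} {p : ℝ} (hTB : StTauBasic) (hQ : StQw) (hp : 0 ≤ p) (hp1 : p ≤ 1)
    (x y : Zd d) : Kd d p x y = ENNReal.ofReal (Qw (y - x) * tau d p (y - x)) := by
  rw [Kd, ← (hTB d p hp hp1).2.2.2.1, ENNReal.ofReal_mul]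
  have := (hQ d).1 (y - x)
  linarith

/-- the bounds below `pH` -/
theorem below (hKp : StKpInt) (hTB : StTauBasic) (hAE : StAE) (hDh : StDh) (hKft : StKft)
    (hQ : StQw) (d n : ℕ) (p C0 : ℝ)
    (hd : 0 < d) (hn : 1 ≤ n) (hp0 : 0 ≤ p) (hpH : p < pH d) (hp1 : p ≤ 1)
    (hSQ : SumQ (tau d p)) (hl0 : 0 ≤ lam d p) (hl1 : lam d p < 1) (hBd : Bd 2 d p)
    (hI1 : ∫⁻ k, ENNReal.ofReal (((1 - lam d p * Dh k) ^ (2 * n))⁻¹) ∂(muT d) ≤ ENNReal.ofReal C0)
    (hI2 : ∫⁻ k, ENNReal.ofReal (|Dh k| * ((1 - lam d p * Dh k) ^ (2 * n))⁻¹) ∂(muT d) ≤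
      ENNReal.ofReal (C0 / Real.sqrt d)) (x y : Zd d) :
    kp (Kd d p) n x y ≤ ENNReal.ofReal (18 ^ n * C0) ∧
    ∑ b ∈ nb x, kp (Kd d p) n b y ≤ ENNReal.ofReal (2 * d * (18 ^ n * C0 / Real.sqrt d)) := by
  obtain ⟨-, -, hSym, htE, ht0⟩ := hTB d p hp0 hp1
  set f : Zd d → ℝ := fun x => Qw x * tau d p x with hf
  have hQ0 : ∀ x : Zd d, 0 ≤ Qw x := fun x => by have := (hQ d).1 x; linarith
  have hf0 : ∀ x, 0 ≤ f x := fun x => mul_nonneg (hQ0 x) (ht0 x).1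
  have hfs : Summable f := by
    refine hSQ.congr fun x => ?_
    rw [hf, abs_of_nonneg (ht0 x).1]
  have hfe : EvenF f := by
    intro x
    show Qw (-x) * tau d p (-x) = Qw x * tau d p x
    rw [(hQ d).2.2.1, even_of_sym hSym x]
  have hK : Kd d p = fun x y => ENNReal.ofReal (f (y - x)) := by
    funext x y
    exact kd_eq hTB hQ hp0 hp1 x y
  have hpt : ∀ k : Fin d → ℝ, (∀ i, |k i| ≤ Real.pi) →
      |FT f k| ^ n ≤ 18 ^ n * ((1 - lam d p * Dh k) ^ (2 * n))⁻¹ := by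
    intro k hk
    have h1 := hKft d p hd hp0 hpH (bd3 hBd) k hk
    have h2 : |FT f k| ^ n ≤ (18 * ((1 - lam d p * Dh k) ^ 2)⁻¹) ^ n :=
      pow_le_pow_left₀ (abs_nonneg _) h1 n
    refine h2.trans (le_of_eq ?_)
    rw [mul_pow, inv_pow, ← pow_mul]
  have hae := hAE d
  have h0 := hKp d f hf0 hfs hfe n x y hn
  rw [← hK] at h0
  constructor
  · refine h0.1.trans ?_
    calc ∫⁻ k, ENNReal.ofReal (|FT f k| ^ n) ∂(muT d)
        ≤ ∫⁻ k, ENNReal.ofReal (18 ^ n) *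
            ENNReal.ofReal (((1 - lam d p * Dh k) ^ (2 * n))⁻¹) ∂(muT d) := by
          apply lintegral_mono_ae
          filter_upwards [hae] with k hk
          rw [← ENNReal.ofReal_mul (by positivity)]
          exact ENNReal.ofReal_le_ofReal (hpt k hk)
      _ = ENNReal.ofReal (18 ^ n) *
            ∫⁻ k, ENNReal.ofReal (((1 - lam d p * Dh k) ^ (2 * n))⁻¹) ∂(muT d) :=
          lintegral_const_mul' _ _ ENNReal.ofReal_ne_top
      _ ≤ ENNReal.ofReal (18 ^ n) * ENNReal.ofReal C0 := mul_le_mul_right hI1 _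
      _ = ENNReal.ofReal (18 ^ n * C0) := by rw [← ENNReal.ofReal_mul (by positivity)]
  · refine h0.2.trans ?_
    calc ∫⁻ k, ENNReal.ofReal (2 * d * |Dh k| * |FT f k| ^ n) ∂(muT d)
        ≤ ∫⁻ k, ENNReal.ofReal (2 * d * 18 ^ n) *
            ENNReal.ofReal (|Dh k| * ((1 - lam d p * Dh k) ^ (2 * n))⁻¹) ∂(muT d) := by
          apply lintegral_mono_ae
          filter_upwards [hae] with k hk
          rw [← ENNReal.ofReal_mul (by positivity)]
          apply ENNReal.ofReal_le_ofReal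
          have h1 : 0 ≤ 2 * (d : ℝ) * |Dh k| := by positivity
          have h2 := mul_le_mul_of_nonneg_left (hpt k hk) h1
          refine h2.trans (le_of_eq ?_)
          ring
      _ = ENNReal.ofReal (2 * d * 18 ^ n) *
            ∫⁻ k, ENNReal.ofReal (|Dh k| * ((1 - lam d p * Dh k) ^ (2 * n))⁻¹) ∂(muT d) :=
          lintegral_const_mul' _ _ ENNReal.ofReal_ne_top
      _ ≤ ENNReal.ofReal (2 * d * 18 ^ n) * ENNReal.ofReal (C0 / Real.sqrt d) :=
          mul_le_mul_right hI2 _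
      _ = ENNReal.ofReal (2 * d * (18 ^ n * C0 / Real.sqrt d)) := by
          rw [← ENNReal.ofReal_mul (by positivity)]
          congr 1
          ring

/-- the module from its hypotheses, for every power -/
theorem main (hTL : StTauLeft) (hKS : StKpSup) (hB7 : StB7) (hB1 : StB1) (hKft : StKft)
    (hKp : StKpInt) (hRW : StRW) (hTB : StTauBasic) (hAE : StAE) (hTM : StTauMono) (hS6d : StS6d)
    (hQ : StQw) (hDh : StDh) (n : ℕ) (hn : 1 ≤ n) :
    ∃ C : ℝ, 1 ≤ C ∧ ∃ d₁ : ℕ, ∀ d : ℕ, d₁ ≤ d → ∀ x y : Zd d,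
      kp (Kd d (pH d)) n x y ≤ ENNReal.ofReal C ∧
      ∑ b ∈ nb x, ENNReal.ofReal (pH d) * kp (Kd d (pH d)) n b y ≤
        ENNReal.ofReal (C / Real.sqrt d) := by
  obtain ⟨C7, -, d7, h7⟩ := hB7
  obtain ⟨C0, hC0, dR, hR⟩ := hRW (2 * n)
  have hpC : 0 < 18 ^ n * C0 := by positivity
  refine ⟨2 * (18 ^ n * C0) + 1, by linarith, max d7 (max dR 1), fun d hd x y => ?_⟩
  have hd7 : d7 ≤ d := le_trans (le_max_left _ _) hd
  have hdR : dR ≤ d := le_trans ((le_max_left _ _).trans (le_max_right _ _)) hd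
  have hd1 : 1 ≤ d := le_trans ((le_max_right _ _).trans (le_max_right _ _)) hd
  have hd0 : (0 : ℝ) < d := by exact_mod_cast hd1
  have hsd : 0 < Real.sqrt d := Real.sqrt_pos.2 hd0
  obtain ⟨hb, hpd⟩ := h7 d hd7
  obtain ⟨hpos, hhalf⟩ := hS6d d hd1
  -- below `pH`
  have hlow : ∀ q : {p : ℝ // 0 ≤ p ∧ p < pH d}, ∀ x y : Zd d,
      kp (Kd d q.1) n x y ≤ ENNReal.ofReal (18 ^ n * C0) ∧
      ∑ b ∈ nb x, kp (Kd d q.1) n b y ≤
        ENNReal.ofReal (2 * d * (18 ^ n * C0 / Real.sqrt d)) := by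
    rintro ⟨p, hp0, hp1⟩ x y
    obtain ⟨hp2, hSQ, -, -, hl0, hl1, -⟩ := hB1 d p hd1 hp0 hp1
    obtain ⟨hI1, hI2⟩ := hR d hdR (lam d p) hl0 hl1
    exact below hKp hTB hAE hDh hKft hQ d n p C0 hd1 hn hp0 hp1 (by linarith) hSQ hl0 hl1
      (hb p hp0 hp1).1 hI1 hI2 x y
  -- the limit
  have hNe : Nonempty {p : ℝ // 0 ≤ p ∧ p < pH d} := ⟨⟨0, le_rfl, hpos⟩⟩
  have hmono : ∀ i j : {p : ℝ // 0 ≤ p ∧ p < pH d}, i ≤ j → ∀ x y, Kd d i.1 x y ≤ Kd d j.1 x y := by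
    intro i j hij x y
    simp only [Kd]
    refine mul_le_mul_right (hTM d i.1 j.1 _ i.2.1 hij ?_) _
    have := j.2.2
    linarith
  have hT : Kd d (pH d) = fun x y => ⨆ q : {p : ℝ // 0 ≤ p ∧ p < pH d}, Kd d q.1 x y := by
    funext x y
    simp only [Kd]
    rw [hTL d (y - x) hd1, ENNReal.mul_iSup]
  have hsup : ∀ x y : Zd d, kp (Kd d (pH d)) n x y =
      ⨆ q : {p : ℝ // 0 ≤ p ∧ p < pH d}, kp (Kd d q.1) n x y := by
    intro x y
    rw [hT]
    exact hKS (Zd d) {p : ℝ // 0 ≤ p ∧ p < pH d} (fun q => Kd d q.1) hmono n x y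
  constructor
  · rw [hsup]
    refine iSup_le fun q => (hlow q x y).1.trans (ENNReal.ofReal_le_ofReal ?_)
    linarith
  · rw [← Finset.mul_sum]
    have h1 : ∑ b ∈ nb x, kp (Kd d (pH d)) n b y ≤
        ENNReal.ofReal (2 * d * (18 ^ n * C0 / Real.sqrt d)) := by
      have h2 : ∑ b ∈ nb x, kp (Kd d (pH d)) n b y =
          ∑ b ∈ nb x, ⨆ q : {p : ℝ // 0 ≤ p ∧ p < pH d}, kp (Kd d q.1) n b y :=
        Finset.sum_congr rfl fun b _ => hsup b y
      rw [h2, ENNReal.finsetSum_iSup_of_monotone]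
      · exact iSup_le fun q => (hlow q x y).2
      · intro b i j hij
        exact kp_mono (hmono i j hij) n b y
    calc ENNReal.ofReal (pH d) * ∑ b ∈ nb x, kp (Kd d (pH d)) n b y
        ≤ ENNReal.ofReal (1 / d) * ENNReal.ofReal (2 * d * (18 ^ n * C0 / Real.sqrt d)) :=
          mul_le_mul' (ENNReal.ofReal_le_ofReal hpd) h1
      _ = ENNReal.ofReal (2 * (18 ^ n * C0) / Real.sqrt d) := by
          rw [← ENNReal.ofReal_mul (by positivity)]
          congr 1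
          field_simp
      _ ≤ ENNReal.ofReal ((2 * (18 ^ n * C0) + 1) / Real.sqrt d) := by
          refine ENNReal.ofReal_le_ofReal ?_
          gcongr
          linarith

end KpQM

open KpQM

/-- powers of the weighted kernel at `pH` -/
theorem hKpQ : SKpQ := by
  have hPE := LE.hPolyExp
  have hPH := LE.hPH LE.hPhi
  have hDiag := LE.allFinite
  have hCoef := LE.allCoef
  have hBox := LE.hBox
  have hW := LE.hWalkBox hBox
  have hT := LE.hTransl
  have hCL := LE.hCoefLoc (LE.hCoefLoc0 hW) hT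
  have hGE := LE.hGmEq
  have hRX := LE.hRenX
  have hS := LE.hSupp hW hBox
  have hG := LE.hGcoef hCoef hCL hGE hS hBox
  have hSyT := LE.hSymT
  have hSyG := LE.hSymG hSyT
  have hTN := LE.hTnNonneg
  have hTS := LE.hTauSum hCL hBox hW
  have hTD := LE.hTauDom hT hBox
  have hTM := LE.hTauMono
  have hTB := LE.hTauBasic hTS hSyT
  have hQ := LE.hQw
  have hDZ := LE.hDiagZ hDiag hG hTD hTB hQ hBox
  have hN := LE.hNuProb
  have hRW := LE.hRW LE.hRW0 (LE.hRW1 hN) (LE.hDh2 hN) LE.hCos1 hN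
  have hDh := LE.hDh
  have hFTb := LE.hFTb
  have hFTadd := LE.hFTadd
  have hCv := LE.hCv hQ
  have hCvFT := LE.hCvFT hCv hFTb
  have hJf := LE.hJf hBox
  have hKp := LE.hKpInt (LE.hInv hN)
  have hIso := LE.hIso
  have hSec := LE.hSec hIso hDh hFTb
  have hBK := LE.hBK
  have hEM := LE.hExpMom (LE.hExit hBK hT hBox) hTB hBox
  have hSub := LE.hSub hPH hEM hPE hTB
  have hTBx := LE.hTauBox hBox hTB
  have hTC := LE.hTauCont (LE.hTauCont0 hTBx hSub hTM hTB) hSub hTM hTB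
  have hSp := LE.hSphere hBox hTD
  have hCI := LE.hChiInf hSp hPH
  have hChL := LE.hChiLim hCI hPH hTB hSub
  obtain ⟨h6a, h6b, h6c, h6d⟩ := LE.hS6 hSub hTC hChL hPH
  have hB1 := LE.hB1 h6a h6d hTB
  have hKft := LE.hKft hB1 hFTb hDh
  have hEta := LE.hEta hB1 LE.hAE hKft hRW hKp hDZ hTB hDh
  have hCvA := LE.hCvA hSyG hFTb
  have hCvB := LE.hCvB hTS hTB hRX hS hBox hTN hCvA
  have hImpF := LE.hImpF hCv hCvFT hFTadd hJf hFTb
  have hImp := LE.hImp hImpF LE.hImpR hSec hDh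
  have hBoot := LE.hBoot hB1 hEta hCvA hCvB hImp hTB
  have hOCc := LE.hOCc h6b hB1 hFTadd hFTb hDh
  have hB7 := LE.hB7 hBoot LE.hOC0 (LE.hOC1 hOCc) LE.hCon01 h6d
  exact KpQM.main (NL.hTauLeft hPH hTM) NL.hKpSup hB7 hB1 hKft hKp hRW hTB LE.hAE hTM h6d hQ hDh 64
    (by norm_num)

end Pool.LT
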